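import Pool.Agent.Helper98.TQ.Defs
import Pool.Agent.Helper11.QU.Core

/-!
# TOWERS, quadric cones: TQ2 and TQ2'
-/

set_option autoImplicit false

namespace Pool.Agent.Helper57.TQ

open MvPolynomial Pool.Agent.Helper49.QU Pool.Agent.Helper98.TQ Pool.Agent.Helper69.CB

/-- **TQ2** -/
theorem aP_ne {R : Type} [CommRing R] [IsDomain R] {t : Ideal R} (ht : t ≠ ⊥) {N s' : ℕ}
    (q : Matrix (Fin N) (Fin N) R) (hs : t ^ s' ≤ Co q) : aP q ≠ 0 := by
  intro h
  have h1 : Co q = ⊥ := by
    rw [Co, Ideal.span_eq_bot]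
    rintro _ ⟨d, rfl⟩
    simp only [h, coeff_zero]
  rw [h1, le_bot_iff] at hs
  exact pow_ne_zero s' ht hs

section degree

variable {σ R : Type*} [CommRing R]

theorem degreeOf_det_three (x : σ) (M : Matrix (Fin 3) (Fin 3) (MvPolynomial σ R)) (e : Fin 3 → ℕ)
    (h : ∀ c d, degreeOf x (M c d) ≤ e c + e d) : degreeOf x M.det ≤ 2 * (e 0 + e 1 + e 2) := by
  rw [Matrix.det_fin_three]
  have m := fun p q : MvPolynomial σ R => degreeOf_mul_le x p q
  have k : ∀ (a b c a' b' c' : Fin 3), e a + e a' + (e b + e b') + (e c + e c') ≤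
      2 * (e 0 + e 1 + e 2) →
      degreeOf x (M a a' * M b b' * M c c') ≤ 2 * (e 0 + e 1 + e 2) := by
    intro a b c a' b' c' hle
    have h1 := m (M a a' * M b b') (M c c')
    have h2 := m (M a a') (M b b')
    have h3 := h a a'
    have h4 := h b b'
    have h5 := h c c'
    omega
  refine (degreeOf_sub_le x _ _).trans (max_le ?_ ?_)
  · refine (degreeOf_add_le x _ _).trans (max_le ?_ ?_)
    · refine (degreeOf_add_le x _ _).trans (max_le ?_ ?_)
      · refine (degreeOf_sub_le x _ _).trans (max_le ?_ ?_)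
        · refine (degreeOf_sub_le x _ _).trans (max_le ?_ ?_)
          · exact k _ _ _ _ _ _ (by omega)
          · exact k _ _ _ _ _ _ (by omega)
        · exact k _ _ _ _ _ _ (by omega)
      · exact k _ _ _ _ _ _ (by omega)
    · exact k _ _ _ _ _ _ (by omega)
  · exact k _ _ _ _ _ _ (by omega)

end degree

section

variable {R : Type} [CommRing R] {N : ℕ}

theorem map_D1 {S : Type*} [CommRing S] {T : Type*} [CommRing T] (f : S →+* T)
    (B : Matrix (Fin N) (Fin N) S) (v : Fin 3 → Fin N → S) :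
    f (D1 B v) = D1 (B.map f) (fun c j => f (v c j)) := by
  simp [D1, bil]

theorem map_D2 {S : Type*} [CommRing S] {T : Type*} [CommRing T] (f : S →+* T)
    (B : Matrix (Fin N) (Fin N) S) (v : Fin 3 → Fin N → S) :
    f (D2 B v) = D2 (B.map f) (fun c j => f (v c j)) := by
  simp [D2, bil]

theorem map_D3 {S : Type*} [CommRing S] {T : Type*} [CommRing T] (f : S →+* T)
    (B : Matrix (Fin N) (Fin N) S) (v : Fin 3 → Fin N → S) :
    f (D3 B v) = D3 (B.map f) (fun c j => f (v c j)) := by
  rw [D3, D3, f.map_det]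
  congr 1
  ext c d
  simp [bil]

/-- the degree of a generic coordinate in a variable -/
theorem degreeOf_vv [Nontrivial R] (x : Fin (3 * N)) (c : Fin 3) (j : Fin N) :
    degreeOf x (vv R N c j) ≤ if (finProdFinEquiv.symm x).1 = c then 1 else 0 := by
  classical
  rw [vv, degreeOf_X]
  by_cases h : x = finProdFinEquiv (c, j)
  · rw [if_pos h, h, Equiv.symm_apply_apply, if_pos rfl]
  · rw [if_neg h]; exact Nat.zero_le _

theorem degreeOf_bil_vv [Nontrivial R] (B : Matrix (Fin N) (Fin N) R) (x : Fin (3 * N))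
    (c d : Fin 3) : degreeOf x (bil (B.map C) (vv R N c) (vv R N d)) ≤
      (if (finProdFinEquiv.symm x).1 = c then 1 else 0) +
        (if (finProdFinEquiv.symm x).1 = d then 1 else 0) := by
  refine Pool.Agent.Helper11.QU.degreeOf_bil x (fun i j => (B.map C) i j) _ _ _ _ ?_ ?_ ?_
  · intro j k
    rw [Matrix.map_apply, degreeOf_C]
  · exact fun j => degreeOf_vv x c j
  · exact fun j => degreeOf_vv x d j

theorem sum_ite (a : Fin 3) : (if a = 0 then 1 else 0) + (if a = 1 then 1 else 0) +
    (if a = 2 then 1 else 0) = 1 := by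
  fin_cases a <;> rfl

theorem degreeOf_D [Nontrivial R] (B : Matrix (Fin N) (Fin N) R) (x : Fin (3 * N)) :
    degreeOf x (D1 (B.map C) (vv R N)) ≤ 2 ∧ degreeOf x (D2 (B.map C) (vv R N)) ≤ 2 ∧
      degreeOf x (D3 (B.map C) (vv R N)) ≤ 2 := by
  have h := degreeOf_bil_vv B x
  have hs := sum_ite (finProdFinEquiv.symm x).1
  refine ⟨?_, ?_, ?_⟩
  · have h1 := h 0 0
    rw [D1]
    split_ifs at h1 <;> omega
  · have h1 := Pool.Agent.Helper11.QU.degreeOf_D2 x _ _ _ _ _ (h 0 0) (h 0 1) (h 1 1)
    rw [D2]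
    omega
  · have h1 := degreeOf_det_three x (Matrix.of fun c d : Fin 3 => bil (B.map C) (vv R N c) (vv R N d))
      (fun c => if (finProdFinEquiv.symm x).1 = c then 1 else 0) (fun c d => h c d)
    rw [D3]
    omega

end

/-- **TQ2'** -/
theorem tri_aP {R : Type} [CommRing R] [IsDomain R] {N : ℕ} (q : Matrix (Fin N) (Fin N) R)
    (ha : aP q ≠ 0) (P : MvPolynomial (Fin (3 * N)) (FractionRing R)) (hP : Irreducible P)
    (hd : P ∣ MvPolynomial.map (algebraMap R (FractionRing R)) (aP q)) : TriDeg 3 P := by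
  set f : MvPolynomial (Fin (3 * N)) R →+* MvPolynomial (Fin (3 * N)) (FractionRing R) :=
    MvPolynomial.map (algebraMap R (FractionRing R)) with hf
  have hinj : Function.Injective f := MvPolynomial.map_injective _ (IsFractionRing.injective R _)
  have hB : (q.map C).map f = (q.map (algebraMap R (FractionRing R))).map C := by
    ext i j
    simp [hf]
  have hv : (fun c j => f (vv R N c j)) = vv (FractionRing R) N := by
    funext c j
    simp [hf, vv]
  have hprime : Prime P := hP.prime
  have hdeg := degreeOf_D (q.map (algebraMap R (FractionRing R)))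
  intro j _
  have key : ∀ F : MvPolynomial (Fin (3 * N)) R, F ≠ 0 → P ∣ f F → degreeOf j (f F) ≤ 2 →
      degreeOf j P ≤ 3 := by
    intro F hF hdv h2
    have h3 : f F ≠ 0 := fun h => hF (hinj (by rw [h, map_zero]))
    have := Pool.Agent.Helper11.QU.degreeOf_le_of_dvd j h3 hdv
    omega
  rw [aP, map_mul, map_mul] at hd
  rw [aP] at ha
  have ha3 := right_ne_zero_of_mul ha
  have ha12 := left_ne_zero_of_mul ha
  have ha1 := left_ne_zero_of_mul ha12
  have ha2 := right_ne_zero_of_mul ha12
  rcases hprime.dvd_or_dvd hd with hd | hd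
  · rcases hprime.dvd_or_dvd hd with hd | hd
    · refine key _ ha1 hd ?_
      rw [map_D1, hB, hv]
      exact (hdeg j).1
    · refine key _ ha2 hd ?_
      rw [map_D2, hB, hv]
      exact (hdeg j).2.1
  · refine key _ ha3 hd ?_
    rw [map_D3, hB, hv]
    exact (hdeg j).2.2

end Pool.Agent.Helper57.TQ
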